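import Pool.Agent.Y258.SD.CStmts

set_option autoImplicit false

/-!
# Job C1: exactness of the random path
-/

namespace Pool.Agent.Y359.SD

open Finset Pool.Agent.H470D4 Pool.Agent.Y258

section
variable {q M B n : ℕ} [Fact q.Prime]

/-- the number of pairs (row, level) whose row vanishes on the level -/
noncomputable def fC1 (c : Flg q M B n) (ω : Pth q B) : ℝ :=
  ∑ j ∈ range (M * B), ∑ W ∈ (Lbox M B n).filter (fun W => ∑ a, W a + j < M * B),
    kil M j (AA c ω W j) ω

lemma fC1_nonneg (c : Flg q M B n) (ω : Pth q B) : 0 ≤ fC1 c ω :=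
  sum_nonneg fun _ _ => sum_nonneg fun _ _ => kil_nonneg _ _ _ _

lemma kil_dep (A : Submodule (ZMod q) (Vec q M B)) (j : ℕ) :
    DepLT (j * M + M) (kil M j A) := by
  intro ω ω' h
  unfold kil
  have e : row M ω j = row M ω' j := by
    apply row_congr'
    intro k hk
    exact h _ (by omega)
  rw [e]

lemma kilAA_dep (c : Flg q M B n) (W : Fin (n+2) → ℕ) (j : ℕ) :
    DepLT (j * M + M) (fun ω : Pth q B => kil M j (AA c ω W j) ω) := by
  intro ω ω' h
  have e : AA c ω W j = AA c ω' W j := AA_dep c W j ω ω' (h.mono (by omega))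
  show kil M j (AA c ω W j) ω = kil M j (AA c ω' W j) ω'
  rw [e]
  exact kil_dep _ j ω ω' h

lemma EE_kil_le (Al : ℕ → Pth q B → Finset (Blk q B)) (hB : ∀ j ω, q ^ B ≤ 2 * (Al j ω).card)
    (h8 : 8 ≤ q) (c : Flg q M B n) (hc : IsFlags c) (T : ℕ) (j : ℕ) (hT : j * M + M ≤ T)
    (W : Fin (n+2) → ℕ) (ω₀ : Pth q B) :
    EE Al 0 T (fun ω => kil M j (AA c ω W j) ω) ω₀ ≤ (2 / (q:ℝ)) ^ (M * B - (∑ a, W a + j)) := by
  have hq8 : (8:ℝ) ≤ q := by exact_mod_cast h8
  have hq0 : (0:ℝ) < q := by linarith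
  have hne : ∀ j ω, (Al j ω).Nonempty := by
    intro j ω
    rw [← Finset.card_pos]
    have h1 := hB j ω
    have h2 : 0 < q ^ B := Nat.pow_pos (by omega)
    omega
  obtain ⟨R, hR⟩ : ∃ R, T = j * M + (M + R) := ⟨T - (j * M + M), by omega⟩
  rw [hR, EE_add, Nat.zero_add]
  have h1 : EE Al (j * M) (M + R) (fun ω => kil M j (AA c ω W j) ω) =
      EE Al (j * M) M (fun ω => kil M j (AA c ω W j) ω) := by
    rw [EE_add]
    congr 1
    funext ω
    exact EE_dep Al hne _ _ (kilAA_dep c W j) ω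
  rw [h1]
  have h2 : ∀ ω', Agr 0 ω₀ ω' → EE Al (j * M) M (fun ω => kil M j (AA c ω W j) ω) ω' ≤
      (2 / (q:ℝ)) ^ (M * B - (∑ a, W a + j)) := by
    intro ω' _
    have h3 : EE Al (j * M) M (fun ω => kil M j (AA c ω W j) ω) ω' ≤
        EE Al (j * M) M (kil M j (AA c ω' W j)) ω' := by
      refine EE_mono Al _ _ fun ω'' h'' => ?_
      have e : AA c ω'' W j = AA c ω' W j := (AA_dep c W j ω' ω'' h'').symm
      rw [e]
    refine h3.trans ((lemP Al hB (by omega) j M le_rfl ω' _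
      (by rw [Nat.sub_self, Vb_zero]; exact le_top)).trans ?_)
    refine pow_le_pow_of_le_one (by positivity) ?_ ?_
    · rw [div_le_one hq0]; linarith
    · have := finrank_AA_ge c hc ω' W j
      omega
  refine (EE_mono Al 0 (j * M) h2).trans (le_of_eq ?_)
  exact EE_dep Al hne 0 (j * M) (g := fun _ => (2 / (q:ℝ)) ^ (M * B - (∑ a, W a + j)))
    (fun _ _ _ => rfl) ω₀

lemma EE_fC1_le (Al : ℕ → Pth q B → Finset (Blk q B)) (hB : ∀ j ω, q ^ B ≤ 2 * (Al j ω).card)
    (h8 : 8 ≤ q) (c : Flg q M B n) (hc : IsFlags c) (ω₀ : Pth q B) :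
    EE Al 0 (M * B * M) (fC1 c) ω₀ ≤ 4 * ((M * B + 1 : ℕ) : ℝ) ^ (n + 3) / q := by
  have hq8 : (8:ℝ) ≤ q := by exact_mod_cast h8
  have hq0 : (0:ℝ) < q := by linarith
  unfold fC1
  rw [EE_sum]
  have h1 : ∀ j ∈ range (M * B), EE Al 0 (M * B * M)
      (fun ω => ∑ W ∈ (Lbox M B n).filter (fun W => ∑ a, W a + j < M * B),
        kil M j (AA c ω W j) ω) ω₀ ≤ ((M * B : ℕ) : ℝ) ^ (n + 2) * (2 / (q:ℝ)) := by
    intro j hj
    have hj' := mem_range.1 hj
    rw [EE_sum]
    have h2 : ∀ W ∈ (Lbox M B n).filter (fun W => ∑ a, W a + j < M * B),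
        EE Al 0 (M * B * M) (fun ω => kil M j (AA c ω W j) ω) ω₀ ≤ 2 / (q:ℝ) := by
      intro W hW
      have hW' := (mem_filter.1 hW).2
      refine (EE_kil_le Al hB h8 c hc (M * B * M) j ?_ W ω₀).trans ?_
      · calc j * M + M = (j + 1) * M := by ring
          _ ≤ M * B * M := Nat.mul_le_mul_right _ hj'
      · calc (2 / (q:ℝ)) ^ (M * B - (∑ a, W a + j)) ≤ (2 / (q:ℝ)) ^ 1 := by
              refine pow_le_pow_of_le_one (by positivity) ?_ (by omega)
              rw [div_le_one hq0]; linarith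
          _ = 2 / (q:ℝ) := pow_one _
    refine (sum_le_sum h2).trans ?_
    rw [sum_const, nsmul_eq_mul]
    refine mul_le_mul_of_nonneg_right ?_ (by positivity)
    have h3 : ((Lbox M B n).filter (fun W => ∑ a, W a + j < M * B)).card ≤ (M * B) ^ (n + 2) := by
      refine (card_filter_le _ _).trans ?_
      unfold Lbox
      rw [Fintype.card_piFinset]
      simp
    exact_mod_cast h3
  refine (sum_le_sum h1).trans ?_
  rw [sum_const, nsmul_eq_mul, card_range, ← mul_assoc, ← pow_succ']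
  have h4 : ((M * B : ℕ) : ℝ) ^ (n + 3) ≤ ((M * B + 1 : ℕ) : ℝ) ^ (n + 3) := by
    refine pow_le_pow_left₀ (by positivity) ?_ _
    push_cast
    linarith
  have h5 : (0:ℝ) ≤ ((M * B + 1 : ℕ) : ℝ) ^ (n + 3) := by positivity
  rw [mul_div_assoc', div_le_div_iff_of_pos_right hq0]
  have : n + 2 + 1 = n + 3 := rfl
  rw [this]
  nlinarith

/-- the summand of `fC1` -/
noncomputable def gC1 (c : Flg q M B n) (ω : Pth q B) (j : ℕ) : ℝ :=
  ∑ W ∈ (Lbox M B n).filter (fun W => ∑ a, W a + j < M * B), kil M j (AA c ω W j) ω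

lemma gC1_nonneg (c : Flg q M B n) (ω : Pth q B) (j : ℕ) : 0 ≤ gC1 c ω j :=
  sum_nonneg fun _ _ => kil_nonneg _ _ _ _

lemma exc_of_fC1 (c : Flg q M B n) (hc : IsFlags c) (ω : Pth q B) (hf : fC1 c ω < 1) :
    ∀ r ≤ M * B, Exc c ω r := by
  have hkil : ∀ j < M * B, ∀ W : Fin (n+2) → ℕ, ∑ a, W a + j < M * B →
      ¬ (AA c ω W j ≤ LinearMap.ker (row M ω j)) := by
    intro j hj W hW hle
    have h1 : kil M j (AA c ω W j) ω = 1 := by
      unfold kil
      rw [if_pos hle]
    have hWb : W ∈ (Lbox M B n).filter (fun W => ∑ a, W a + j < M * B) := by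
      rw [mem_filter]
      refine ⟨?_, hW⟩
      unfold Lbox
      rw [Fintype.mem_piFinset]
      intro a
      rw [mem_range]
      have := Finset.single_le_sum (f := W) (fun i _ => Nat.zero_le _) (mem_univ a)
      omega
    have h3 : kil M j (AA c ω W j) ω ≤
        ∑ W ∈ (Lbox M B n).filter (fun W => ∑ a, W a + j < M * B), kil M j (AA c ω W j) ω :=
      Finset.single_le_sum (f := fun W => kil M j (AA c ω W j) ω)
        (fun _ _ => kil_nonneg _ _ _ _) hWb
    have h4 : gC1 c ω j ≤ ∑ j ∈ range (M * B), gC1 c ω j :=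
      Finset.single_le_sum (f := gC1 c ω) (fun _ _ => gC1_nonneg c ω _) (mem_range.2 hj)
    rw [h1] at h3
    have h2 : (1:ℝ) ≤ fC1 c ω := h3.trans h4
    linarith
  intro r
  induction r with
  | zero =>
    intro _ W
    unfold dm
    rw [hc.mds]
    rfl
  | succ r ih =>
    intro hr
    have ih' := ih (by omega)
    have hlow : ∀ W : Fin (n+2) → ℕ, ∑ a, W a + (r + 1) ≤ M * B →
        Module.finrank (ZMod q) (AA c ω W (r+1)) = M * B - (∑ a, W a + (r+1)) := by
      intro W hW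
      have h1 := hkil r (by omega) W (by omega)
      have h2 : AA c ω W (r+1) < AA c ω W r := by
        rw [AA_succ]
        exact lt_of_le_of_ne inf_le_left fun he => h1 (inf_eq_left.1 he)
      have h3 := Submodule.finrank_lt_finrank_of_lt h2
      have h4 := ih' W
      unfold dm at h4
      have h5 := finrank_AA_ge c hc ω W (r+1)
      omega
    intro W
    unfold dm
    rcases Nat.lt_or_ge (M * B) (∑ a, W a + (r + 1)) with h | h
    · have h0 : M * B - (∑ a, W a + (r+1)) = 0 := by omega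
      rw [h0]
      obtain ⟨W', hW', hs⟩ := exists_le_sumN (M * B - (r+1)) (∑ a, W a - (M * B - (r+1))) W
        (by omega)
      have h1 := hlow W' (by omega)
      have h2 : M * B - (∑ a, W' a + (r+1)) = 0 := by omega
      rw [h2] at h1
      have h3 : AA c ω W (r+1) ≤ AA c ω W' (r+1) := AA_mono c ω hW' le_rfl
      have h4 := Submodule.finrank_mono h3
      omega
    · exact hlow W h

end

/-- Job C1. -/
theorem c1 : St_C1 := by
  intro n q _ h8 M B c hc
  exact ⟨fC1 c, fC1_nonneg c, fun Al hB ω₀ => EE_fC1_le Al hB h8 c hc ω₀,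
    fun ω hf => exc_of_fC1 c hc ω hf⟩

end Pool.Agent.Y359.SD
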