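import Pool.Agent.Y258.SD.U

set_option autoImplicit false
set_option linter.unusedSectionVars false

/-!
# Jobs C2 and C8b: no relation in high dimension; expected Fourier bound along a random path
-/

namespace Pool.Agent.Y359.SD

open Finset Pool.Agent.H470D4 Pool.Agent.Y258
open Pool.Agent.H935R2.PS (La uu nn dl mx Suit)

section
variable {q M B n : ℕ} [Fact q.Prime]

lemma row_same {j : ℕ} {ω ω' : Pth q B} (h : Agr (j * M + M) ω ω') :
    (row M ω j : Vec q M B →ₗ[ZMod q] ZMod q) = row M ω' j := by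
  apply row_congr'
  intro k hk
  exact h _ (by omega)

lemma Rel_dep (c : Flg q M B n) (l : Fin (n+2) → ℕ) (r : ℕ) (H : Option (Fin (n+2)) → ZMod q) :
    DepLT (r * M + M) (fun ω : Pth q B => ii (Rel c ω l r H)) := by
  intro ω ω' h
  have e : AA c ω l r = AA c ω' l r := AA_dep c l r ω ω' (h.mono (by omega))
  show ii (Rel c ω l r H) = ii (Rel c ω' l r H)
  apply ii_congr
  unfold Pool.Agent.Y258.Rel
  rw [e, row_same h]

/-- probability of one relation -/
lemma EE_Rel_le (Al : ℕ → Pth q B → Finset (Blk q B)) (hB : ∀ j ω, q ^ B ≤ 2 * (Al j ω).card)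
    (h8 : 8 ≤ q) (c : Flg q M B n) (hc : IsFlags c) (T : ℕ) (r : ℕ) (hT : r * M + M ≤ T)
    (l : Fin (n+2) → ℕ) (H : Option (Fin (n+2)) → ZMod q) (hH : H none ≠ 0) (ω₀ : Pth q B) :
    EE Al 0 T (fun ω => ii (Rel c ω l r H)) ω₀ ≤ (2 / (q:ℝ)) ^ dm M B l r := by
  have hq8 : (8:ℝ) ≤ q := by exact_mod_cast h8
  have hq0 : (0:ℝ) < q := by linarith
  have hne := Al_ne (q := q) (B := B) (by omega) Al hB
  rw [EE_upto Al hne hT (Rel_dep c l r H)]
  have e0 : EE Al 0 (r * M + M) (fun ω => ii (Rel c ω l r H)) ω₀ =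
      EE Al 0 (r * M) (EE Al (r * M) M (fun ω => ii (Rel c ω l r H))) ω₀ := by
    rw [EE_add, Nat.zero_add]
  rw [e0]
  have h2 : ∀ ω', Agr 0 ω₀ ω' → EE Al (r * M) M (fun ω => ii (Rel c ω l r H)) ω' ≤
      (2 / (q:ℝ)) ^ dm M B l r := by
    intro ω' _
    have h3 : EE Al (r * M) M (fun ω => ii (Rel c ω l r H)) ω' ≤
        EE Al (r * M) M (kif M r (AA c ω' l r) (-(H none)⁻¹ • ∑ a, H (some a) • c a (l a))) ω' := by
      refine EE_mono Al _ _ fun ω'' h'' => ?_
      have e : AA c ω' l r = AA c ω'' l r := AA_dep c l r ω' ω'' h''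
      rw [e]
      unfold kif ii
      have h4 := Rel_iff c ω'' l r H hH
      split_ifs with h5 h6
      · exact le_rfl
      · exact absurd (h4.1 h5) h6
      · exact zero_le_one
      · exact le_rfl
    refine h3.trans ((EE_row Al hB (by omega) r ω' _ _).trans ?_)
    refine pow_le_pow_of_le_one (by positivity) ?_ ?_
    · rw [div_le_one hq0]; linarith
    · have := finrank_AA_ge c hc ω' l r
      unfold dm
      omega
  refine (EE_mono Al 0 (r * M) h2).trans (le_of_eq ?_)
  exact EE_dep Al hne 0 (r * M) (g := fun _ => (2 / (q:ℝ)) ^ dm M B l r)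
    (fun _ _ _ => rfl) ω₀

/-- levels of dimension `n + 3` -/
def L3 (M B n r : ℕ) : Finset (Fin (n+2) → ℕ) :=
  (Fintype.piFinset (fun _ : Fin (n+2) => range (M * B + 1))).filter
    (fun l => ∑ a, l a + r + (n + 3) = M * B)

/-- the vectors with last coordinate 1 -/
noncomputable def H1 (q n : ℕ) [Fact q.Prime] : Finset (Option (Fin (n+2)) → ZMod q) :=
  univ.filter (fun H => H none = 1)

lemma card_H1 : (H1 q n).card ≤ q ^ (n + 2) := by
  have h1 : (H1 q n).card ≤ (univ : Finset (Fin (n+2) → ZMod q)).card := by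
    refine Finset.card_le_card_of_injOn (fun H a => H (some a)) (fun _ _ => mem_coe.2 (mem_univ _)) ?_
    intro H hH H' hH' h
    unfold H1 at hH hH'
    rw [mem_coe, mem_filter] at hH hH'
    funext o
    rcases o with _ | a
    · rw [hH.2, hH'.2]
    · exact congrFun h a
  refine h1.trans (le_of_eq ?_)
  simp [ZMod.card]

lemma card_L3 : ∑ r ∈ range (M * B), (L3 M B n r).card ≤ (M * B + 1) ^ (n + 2) := by
  have h1 : ((range (M * B)).biUnion (fun r => L3 M B n r)).card =
      ∑ r ∈ range (M * B), (L3 M B n r).card := by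
    refine card_biUnion ?_
    intro r _ r' _ hrr
    rw [Function.onFun, Finset.disjoint_left]
    intro l hl hl'
    unfold L3 at hl hl'
    rw [mem_filter] at hl hl'
    exact hrr (by omega)
  rw [← h1]
  have h2 : (range (M * B)).biUnion (fun r => L3 M B n r) ⊆
      Fintype.piFinset (fun _ : Fin (n+2) => range (M * B + 1)) := by
    intro l hl
    rw [mem_biUnion] at hl
    obtain ⟨r, _, hr⟩ := hl
    unfold L3 at hr
    exact (mem_filter.1 hr).1
  refine (card_le_card h2).trans (le_of_eq ?_)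
  rw [Fintype.card_piFinset]
  simp

/-- the number of relations at dimension `n + 3` -/
noncomputable def fC2 (c : Flg q M B n) (ω : Pth q B) : ℝ :=
  ∑ r ∈ range (M * B), ∑ l ∈ L3 M B n r, ∑ H ∈ H1 q n, ii (Rel c ω l r H)

lemma fC2_nonneg (c : Flg q M B n) (ω : Pth q B) : 0 ≤ fC2 c ω :=
  sum_nonneg fun _ _ => sum_nonneg fun _ _ => sum_nonneg fun _ _ => ii_nonneg _

lemma EE_fC2_le (Al : ℕ → Pth q B → Finset (Blk q B)) (hB : ∀ j ω, q ^ B ≤ 2 * (Al j ω).card)
    (h8 : 8 ≤ q) (c : Flg q M B n) (hc : IsFlags c) (ω₀ : Pth q B) :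
    EE Al 0 (M * B * M) (fC2 c) ω₀ ≤ 2 ^ (n + 3) * ((M * B + 1 : ℕ) : ℝ) ^ (n + 3) / q := by
  have hq8 : (8:ℝ) ≤ q := by exact_mod_cast h8
  have hq0 : (0:ℝ) < q := by linarith
  unfold fC2
  rw [EE_sum]
  have h1 : ∀ r ∈ range (M * B), EE Al 0 (M * B * M)
      (fun ω => ∑ l ∈ L3 M B n r, ∑ H ∈ H1 q n, ii (Rel c ω l r H)) ω₀ ≤
      ((L3 M B n r).card : ℝ) * (2 ^ (n+3) / (q:ℝ)) := by
    intro r hr
    have hr' := mem_range.1 hr
    rw [EE_sum]
    have h2 : ∀ l ∈ L3 M B n r,
        EE Al 0 (M * B * M) (fun ω => ∑ H ∈ H1 q n, ii (Rel c ω l r H)) ω₀ ≤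
          2 ^ (n+3) / (q:ℝ) := by
      intro l hl
      unfold L3 at hl
      have hl' := (mem_filter.1 hl).2
      rw [EE_sum]
      have h3 : ∀ H ∈ H1 q n, EE Al 0 (M * B * M) (fun ω => ii (Rel c ω l r H)) ω₀ ≤
          (2 / (q:ℝ)) ^ (n+3) := by
        intro H hH
        unfold H1 at hH
        have hH' := (mem_filter.1 hH).2
        have h4 := EE_Rel_le Al hB h8 c hc (M * B * M) r (by
          calc r * M + M = (r + 1) * M := by ring
            _ ≤ M * B * M := Nat.mul_le_mul_right _ hr') l H (by rw [hH']; exact one_ne_zero) ω₀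
        have h5 : dm M B l r = n + 3 := by unfold dm; omega
        rw [h5] at h4
        exact h4
      refine (sum_le_sum h3).trans ?_
      rw [sum_const, nsmul_eq_mul]
      have h6 : ((H1 q n).card : ℝ) ≤ (q:ℝ) ^ (n+2) := by exact_mod_cast card_H1 (q := q) (n := n)
      calc ((H1 q n).card : ℝ) * (2 / (q:ℝ)) ^ (n+3) ≤ (q:ℝ) ^ (n+2) * (2 / (q:ℝ)) ^ (n+3) :=
            mul_le_mul_of_nonneg_right h6 (by positivity)
        _ = 2 ^ (n+3) / (q:ℝ) := by
            rw [div_pow, pow_succ (q:ℝ) (n+2)]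
            field_simp
    refine (sum_le_sum h2).trans ?_
    rw [sum_const, nsmul_eq_mul]
  refine (sum_le_sum h1).trans ?_
  rw [← sum_mul]
  have h7 : ∑ r ∈ range (M * B), ((L3 M B n r).card : ℝ) ≤ ((M * B + 1 : ℕ) : ℝ) ^ (n + 3) := by
    have h8 : ∑ r ∈ range (M * B), ((L3 M B n r).card : ℝ) ≤ ((M * B + 1 : ℕ) : ℝ) ^ (n + 2) := by
      exact_mod_cast card_L3 (M := M) (B := B) (n := n)
    refine h8.trans (pow_le_pow_right₀ ?_ (by omega))
    push_cast
    have : (0:ℝ) ≤ (M:ℝ) * B := by positivity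
    linarith
  calc (∑ r ∈ range (M * B), ((L3 M B n r).card : ℝ)) * (2 ^ (n+3) / (q:ℝ)) ≤
        ((M * B + 1 : ℕ) : ℝ) ^ (n + 3) * (2 ^ (n+3) / (q:ℝ)) :=
        mul_le_mul_of_nonneg_right h7 (by positivity)
    _ = 2 ^ (n + 3) * ((M * B + 1 : ℕ) : ℝ) ^ (n + 3) / q := by ring

lemma noRel_of_fC2 (c : Flg q M B n) (ω : Pth q B) (hf : fC2 c ω < 1) : NoRel c ω := by
  intro l r hr hs H hH hRel
  -- scale
  set s : ZMod q := (H none)⁻¹ with hsd
  have hR1 := Rel_smul hRel s
  have hn1 : s * H none = 1 := inv_mul_cancel₀ hH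
  -- increase the coordinate 0
  set k : ℕ := M * B - (∑ a, l a + r + (n + 3)) with hk
  set l' : Fin (n+2) → ℕ := Function.update l 0 (l 0 + k) with hl'
  have hsum : ∑ a, l' a = ∑ a, l a + k := by
    rw [hl', sum_update_of_mem (mem_univ _), Finset.sdiff_singleton_eq_erase]
    have := Finset.add_sum_erase univ l (mem_univ (0 : Fin (n+2)))
    omega
  set H' : Option (Fin (n+2)) → ZMod q := fun o => if o = some 0 ∧ 0 < k then 0 else s * H o
    with hH'
  have hmono : ∀ a, l a ≤ l' a := by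
    intro a
    rw [hl']
    by_cases ha : a = 0
    · subst ha
      rw [Function.update_self]
      omega
    · rw [Function.update_of_ne ha]
  have hRel' : Rel c ω l' r H' := by
    intro v hv
    have hv1 : v ∈ AA c ω l r := AA_mono c ω hmono le_rfl hv
    have e1 := hR1 v hv1
    rw [mem_AA] at hv
    have e2 : ∀ a, H' (some a) * c a (l' a) v = s * H (some a) * c a (l a) v := by
      intro a
      rw [hH', hl']
      show (if some a = some 0 ∧ 0 < k then 0 else s * H (some a)) *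
        (c a (Function.update l 0 (l 0 + k) a)) v = s * H (some a) * (c a (l a)) v
      by_cases ha : a = 0
      · subst ha
        by_cases hk0 : 0 < k
        · simp only [hk0, and_self, if_true, zero_mul]
          have h0 : c 0 (l 0) v = 0 := by
            apply hv.1 0 (l 0)
            rw [hl', Function.update_self]
            omega
          rw [h0, mul_zero]
        · have hk00 : k = 0 := by omega
          rw [if_neg (by omega), Function.update_self, hk00]
          rfl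
      · rw [if_neg (by
          rintro ⟨h, _⟩
          exact ha (Option.some_injective _ h)), Function.update_of_ne ha]
    have e3 : H' none = s * H none := by
      rw [hH']
      simp
    rw [sum_congr rfl (fun a _ => e2 a), e3]
    exact e1
  have hl3 : l' ∈ L3 M B n r := by
    unfold L3
    rw [mem_filter, Fintype.mem_piFinset]
    refine ⟨fun a => ?_, by omega⟩
    rw [mem_range]
    have := Finset.single_le_sum (f := l') (fun i _ => Nat.zero_le _) (mem_univ a)
    omega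
  have hh1 : H' ∈ H1 q n := by
    unfold H1
    rw [mem_filter]
    refine ⟨mem_univ _, ?_⟩
    rw [hH']
    simpa using hn1
  have h1 : (1:ℝ) ≤ fC2 c ω := by
    unfold fC2
    calc (1:ℝ) = ii (Rel c ω l' r H') := (ii_true hRel').symm
      _ ≤ ∑ H ∈ H1 q n, ii (Rel c ω l' r H) :=
        Finset.single_le_sum (f := fun H => ii (Rel c ω l' r H)) (fun _ _ => ii_nonneg _) hh1
      _ ≤ ∑ l ∈ L3 M B n r, ∑ H ∈ H1 q n, ii (Rel c ω l r H) :=
        Finset.single_le_sum (f := fun l => ∑ H ∈ H1 q n, ii (Rel c ω l r H))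
          (fun _ _ => sum_nonneg fun _ _ => ii_nonneg _) hl3
      _ ≤ _ := Finset.single_le_sum
          (f := fun r => ∑ l ∈ L3 M B n r, ∑ H ∈ H1 q n, ii (Rel c ω l r H))
          (fun _ _ => sum_nonneg fun _ _ => sum_nonneg fun _ _ => ii_nonneg _) (mem_range.2 hr)
  linarith

lemma RR_eq (c : Flg q M B n) (ω : Pth q B) (l : Fin (n+2) → ℕ) (r : ℕ) :
    RR c ω l r = ∑ H ∈ (univ : Finset (Option (Fin (n+2)) → ZMod q)).filter (fun H => H none ≠ 0),
      ((q:ℝ) ^ dm M B l r * wm H) * ii (Rel c ω l r H) := by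
  classical
  unfold RR
  rw [← Finset.filter_filter, Finset.sum_filter]
  refine sum_congr rfl fun H _ => ?_
  unfold ii
  split_ifs <;> simp

end

/-- Job C2. -/
theorem c2 : St_C2 := by
  intro n q _ h8 M B c hc
  exact ⟨fC2 c, fC2_nonneg c, fun Al hB ω₀ => EE_fC2_le Al hB h8 c hc ω₀,
    fun ω hf => noRel_of_fC2 c ω hf⟩

/-- Job C8b. -/
theorem c8b (hA : St_A6a) : St_C8b := by
  intro n
  obtain ⟨C, hC, hA⟩ := hA (n + 3)
  refine ⟨⌈(2:ℝ) ^ (n + 2) * C⌉₊, ?_⟩
  intro q _ h8 M B c hc Al hB l r hr hd ω₀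
  have hq8 : (8:ℝ) ≤ q := by exact_mod_cast h8
  have hq0 : (0:ℝ) < q := by linarith
  have e0 : (fun ω => RR c ω l r) = fun ω =>
      ∑ H ∈ (univ : Finset (Option (Fin (n+2)) → ZMod q)).filter (fun H => H none ≠ 0),
      ((q:ℝ) ^ dm M B l r * wm H) * ii (Rel c ω l r H) := by
    funext ω
    exact RR_eq c ω l r
  rw [e0, EE_sum]
  have hA1 := hA q (by omega) (Option (Fin (n+2))) (by simp)
  have h1 : ∀ H ∈ (univ : Finset (Option (Fin (n+2)) → ZMod q)).filter (fun H => H none ≠ 0),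
      EE Al 0 (M * B * M) (fun ω => ((q:ℝ) ^ dm M B l r * wm H) * ii (Rel c ω l r H)) ω₀ ≤
        2 ^ (n+2) * wm H := by
    intro H hH
    have hH' := (mem_filter.1 hH).2
    rw [EE_const_mul]
    have h2 := EE_Rel_le Al hB h8 c hc (M * B * M) r (by
          calc r * M + M = (r + 1) * M := by ring
            _ ≤ M * B * M := Nat.mul_le_mul_right _ hr) l H hH' ω₀
    have hw := wm_nonneg H
    calc (q:ℝ) ^ dm M B l r * wm H * EE Al 0 (M * B * M) (fun ω => ii (Rel c ω l r H)) ω₀ ≤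
          (q:ℝ) ^ dm M B l r * wm H * (2 / (q:ℝ)) ^ dm M B l r :=
          mul_le_mul_of_nonneg_left h2 (by positivity)
      _ = 2 ^ dm M B l r * wm H := by
          rw [div_pow]
          field_simp
      _ ≤ 2 ^ (n+2) * wm H :=
          mul_le_mul_of_nonneg_right (pow_le_pow_right₀ (by norm_num) hd) hw
  refine (sum_le_sum h1).trans ?_
  rw [← mul_sum]
  have h3 : ∑ H ∈ (univ : Finset (Option (Fin (n+2)) → ZMod q)).filter (fun H => H none ≠ 0), wm H ≤
      C * (La q : ℝ) ^ (n + 3) :=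
    (sum_le_sum_of_subset_of_nonneg (filter_subset _ _) (fun H _ _ => wm_nonneg H)).trans hA1
  calc (2:ℝ) ^ (n+2) * ∑ H ∈ (univ : Finset (Option (Fin (n+2)) → ZMod q)).filter
        (fun H => H none ≠ 0), wm H ≤ 2 ^ (n+2) * (C * (La q : ℝ) ^ (n + 3)) :=
        mul_le_mul_of_nonneg_left h3 (by positivity)
    _ = (2 ^ (n+2) * C) * (La q : ℝ) ^ (n + 3) := by ring
    _ ≤ (⌈(2:ℝ) ^ (n + 2) * C⌉₊ : ℝ) * (La q : ℝ) ^ (n + 3) :=
        mul_le_mul_of_nonneg_right (Nat.le_ceil _) (by positivity)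

end Pool.Agent.Y359.SD
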